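import Pool.Agent.Q42.SH.BesOne

/-!
# Elliott's conjecture at all but a bounded number of shifts, the other factors being arbitrary

Let `f(n) = z ^ Ω(n) κ(n)`, `|z| = 1`, `z ≠ 1`, `κ` periodic, for instance the Liouville function times a
Dirichlet character, and let `g_1, ..., g_k` be ARBITRARY sequences in the unit disk.  Of any given
shifts `h` at most `(1 + ε) / δ²` are such that the sum of
`f(n + h) g_1(n + h_1) ⋯ g_k(n + h_k) e(α n)` over `n ≤ N` exceeds `δ N` for some real `α`; this holds for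
natural averages outside one set of scales, and for logarithmic averages at all large scales.
-/

set_option autoImplicit false

open Finset Filter

namespace Pool.Agent.Results.MP_0c9a68_nt.AllButFewShifts

/-- `Ω(n)`, the number of prime factors counted with multiplicity -/
def Om (n : ℕ) : ℕ := ArithmeticFunction.cardFactors n

/-- `e(x) = exp(2 π i x)` -/
noncomputable def e (x : ℝ) : ℂ := Complex.exp (2 * Real.pi * x * Complex.I)

open Classical in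
/-- logarithmic density zero -/
def LogDensityZero (E : Set ℕ) : Prop :=
  Tendsto (fun X : ℕ => (∑ N ∈ Icc 1 X, if N ∈ E then (1 : ℝ) / N else 0) / Real.log X) atTop (nhds 0)

/-- `f(n) = z ^ Ω(n) κ(n)` with a function `κ` bounded by `1` and periodic with period `q` -/
def TwistedOmega (z : ℂ) (q : ℕ) (f : ℕ → ℂ) : Prop := ∃ κ : ℕ → ℂ, (∀ n, ‖κ n‖ ≤ 1) ∧
  (∀ n, κ (n + q) = κ n) ∧ ∀ n, f n = z ^ Om n * κ n

/-- the sum of `f(n + h) g_1(n + h_1) ⋯ g_k(n + h_k) e(α n)` over `n ≤ N` -/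
noncomputable def corr {k : ℕ} (f : ℕ → ℂ) (g : Fin k → ℕ → ℂ) (s : Fin k → ℕ) (h : ℕ) (α : ℝ) (N : ℕ) : ℂ :=
  ∑ n ∈ Icc 1 N, f (n + h) * (∏ j, g j (n + s j)) * e (α * n)

/-- the sum of `f(n + h) g_1(n + h_1) ⋯ g_k(n + h_k) e(α n) / n` over `n ≤ N` -/
noncomputable def logCorr {k : ℕ} (f : ℕ → ℂ) (g : Fin k → ℕ → ℂ) (s : Fin k → ℕ) (h : ℕ) (α : ℝ)
    (N : ℕ) : ℂ :=
  ∑ n ∈ Icc 1 N, f (n + h) * (∏ j, g j (n + s j)) * e (α * n) / n

lemma prod_le {k : ℕ} (g : Fin k → ℕ → ℂ) (hg : ∀ j n, ‖g j n‖ ≤ 1) (s : Fin k → ℕ) (n : ℕ) :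
    ‖∏ j, g j (n + s j)‖ ≤ 1 := by
  rw [norm_prod]
  exact prod_le_one (fun _ _ => norm_nonneg _) fun j _ => hg j _

open Classical in
/-- **Theorem.** Let `|z| = 1`, `z ≠ 1`.  There is one set `𝓔` of logarithmic density zero such that for
every finite set `H` of shifts, every period `q ≥ 1`, every `ε > 0`, all large `N` and all functions
`f(n) = z ^ Ω(n) κ(n)`, `κ` periodic with period `q` and bounded by `1`:
1. if `N ∉ 𝓔`, then for all complex sequences `ξ` and all real `α_h`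
   `∑_{h ∈ H} |∑_{n ≤ N} f(n + h) ξ(n) e(α_h n)|² ≤ (1 + ε) N ∑_{n ≤ N} |ξ(n)|²`;
   so for every `k`, all functions `g_1, ..., g_k` bounded by `1`, all shifts `s_1, ..., s_k` and every
   `δ > 0` at most `(1 + ε) / δ²` of the `h ∈ H` are such that
   `|∑_{n ≤ N} f(n + h) g_1(n + s_1) ⋯ g_k(n + s_k) e(α n)| ≥ δ N` for some real `α`;
2. for all large `N` without exceptions:
   `∑_{h ∈ H} |∑_{n ≤ N} f(n + h) ξ(n) e(α_h n) / n|² ≤ (1 + ε) log N ∑_{n ≤ N} |ξ(n)|² / n`, and at most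
   `(1 + ε) / δ²` of the `h ∈ H` are such that
   `|∑_{n ≤ N} f(n + h) g_1(n + s_1) ⋯ g_k(n + s_k) e(α n) / n| ≥ δ log N` for some real `α`. -/
theorem result (z : ℂ) (hz : ‖z‖ = 1) (hz1 : z ≠ 1) : ∃ 𝓔 : Set ℕ, LogDensityZero 𝓔 ∧
    ∀ (H : Finset ℕ) (q : ℕ), 1 ≤ q → ∀ ε : ℝ, 0 < ε → ∃ N₀ : ℕ, ∀ N : ℕ, N₀ ≤ N →
      ∀ f : ℕ → ℂ, TwistedOmega z q f →
      (N ∉ 𝓔 →
        (∀ (ξ : ℕ → ℂ) (α : ℕ → ℝ),
          ∑ h ∈ H, ‖∑ n ∈ Icc 1 N, f (n + h) * ξ n * e (α h * n)‖ ^ 2 ≤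
            (1 + ε) * N * ∑ n ∈ Icc 1 N, ‖ξ n‖ ^ 2) ∧
        ∀ (k : ℕ) (g : Fin k → ℕ → ℂ), (∀ j n, ‖g j n‖ ≤ 1) → ∀ (s : Fin k → ℕ) (δ : ℝ), 0 < δ →
          ((H.filter (fun h => ∃ α : ℝ, δ * N ≤ ‖corr f g s h α N‖)).card : ℝ) ≤ (1 + ε) / δ ^ 2) ∧
      (∀ (ξ : ℕ → ℂ) (α : ℕ → ℝ),
          ∑ h ∈ H, ‖∑ n ∈ Icc 1 N, f (n + h) * ξ n * e (α h * n) / n‖ ^ 2 ≤
            (1 + ε) * Real.log N * ∑ n ∈ Icc 1 N, ‖ξ n‖ ^ 2 / n) ∧
        ∀ (k : ℕ) (g : Fin k → ℕ → ℂ), (∀ j n, ‖g j n‖ ≤ 1) → ∀ (s : Fin k → ℕ) (δ : ℝ), 0 < δ →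
          ((H.filter (fun h => ∃ α : ℝ, δ * Real.log N ≤ ‖logCorr f g s h α N‖)).card : ℝ) ≤
            (1 + ε) / δ ^ 2 := by
  obtain ⟨E, hE, h1⟩ := Pool.Agent.Q42.SH.two_LZ z hz hz1
  refine ⟨E, hE, fun H q hq ε₀ hε₀ => ?_⟩
  -- a smaller `ε` for the logarithmic averages
  obtain ⟨ε, hε, hεε, hεl⟩ : ∃ ε : ℝ, 0 < ε ∧ ε ≤ ε₀ ∧ (1 + ε) ^ 2 ≤ 1 + ε₀ := by
    refine ⟨min 1 (ε₀ / 3), lt_min one_pos (by positivity), ?_, ?_⟩
    · exact (min_le_right _ _).trans (by linarith)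
    · have a1 : min 1 (ε₀ / 3) ≤ 1 := min_le_left _ _
      have a2 : min 1 (ε₀ / 3) ≤ ε₀ / 3 := min_le_right _ _
      have a3 : 0 < min 1 (ε₀ / 3) := lt_min one_pos (by positivity)
      nlinarith
  set κ₀ : ℝ := min (ε / (4 * (H.card + 1))) (1 / 2) with hκ₀
  have hκ0 : 0 < κ₀ := lt_min (by positivity) (by norm_num)
  have hκ1 : κ₀ ≤ 1 / 2 := min_le_right _ _
  have hκ2 : H.card * (κ₀ + κ₀) ≤ ε / 2 := by
    have h2 : κ₀ ≤ ε / (4 * (H.card + 1)) := min_le_left _ _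
    calc H.card * (κ₀ + κ₀) ≤ (H.card + 1) * (ε / (4 * (H.card + 1)) + ε / (4 * (H.card + 1))) :=
          mul_le_mul (by linarith) (by linarith) (by positivity) (by positivity)
      _ = ε / 2 := by
          field_simp
          ring
  have hq0 : (0 : ℝ) < q := by exact_mod_cast hq
  -- the two point bounds for all the functions
  have h2 : ∃ N₁ : ℕ, ∀ N : ℕ, N₁ ≤ N → ∀ a ∈ H, ∀ c ∈ H, a ≠ c → N ∉ E → ∀ f, TwistedOmega z q f →
      ∀ γ : ℝ, ‖∑ n ∈ Icc 1 N, f (n + a) * (starRingEnd ℂ) (f (n + c)) *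
        Pool.Agent.Helper602.MK.ee (γ * n)‖ ≤ κ₀ * N := by
    refine Pool.Agent.Q42.SH.max_pairs H (fun a c N => N ∉ E → ∀ f, TwistedOmega z q f →
      ∀ γ : ℝ, ‖∑ n ∈ Icc 1 N, f (n + a) * (starRingEnd ℂ) (f (n + c)) *
        Pool.Agent.Helper602.MK.ee (γ * n)‖ ≤ κ₀ * N) fun a _ c _ hac => ?_
    obtain ⟨N₀, h3⟩ := h1 a c hac (κ₀ / q) (by positivity)
    refine ⟨N₀, fun N hN hNE f hf γ => ?_⟩
    obtain ⟨κ, hκ, hκq, hfκ⟩ := hf
    have h4 := Pool.Agent.Y842.PG.per_I N q hq (fun n => z ^ ArithmeticFunction.cardFactors (n + a) *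
      (starRingEnd ℂ) z ^ ArithmeticFunction.cardFactors (n + c))
      (fun n => κ (n + a) * (starRingEnd ℂ) (κ (n + c))) 0 (fun n => by
        show ‖κ (n + a) * (starRingEnd ℂ) (κ (n + c))‖ ≤ 1
        rw [norm_mul, RCLike.norm_conj]
        exact mul_le_one₀ (hκ _) (norm_nonneg _) (hκ _)) (fun n => by
        show κ (n + q + a) * (starRingEnd ℂ) (κ (n + q + c)) = κ (n + a) * (starRingEnd ℂ) (κ (n + c))
        have e1 : n + q + a = n + a + q := by ring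
        have e2 : n + q + c = n + c + q := by ring
        rw [e1, e2, hκq, hκq]) (κ₀ / q * N) (fun γ' => h3 N hN hNE γ' N le_rfl) γ
    have e3 : (q : ℝ) * (κ₀ / q * N) = κ₀ * N := by
      field_simp
    rw [e3] at h4
    refine le_trans (le_of_eq ?_) h4
    congr 1
    refine sum_congr rfl fun n _ => ?_
    rw [hfκ, hfκ]
    unfold Om
    rw [map_mul, map_pow, add_zero]
    ring
  obtain ⟨N₁, h3⟩ := h2
  obtain ⟨X₀, hX₀⟩ := Pool.Agent.Q42.SH.log_unif E hE N₁ κ₀ hκ0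
  have hlog : Tendsto (fun X : ℕ => Real.log X) atTop atTop :=
    Real.tendsto_log_atTop.comp tendsto_natCast_atTop_atTop
  obtain ⟨N₂, hN₂⟩ := eventually_atTop.1 (hlog.eventually_ge_atTop (2 / ε))
  refine ⟨N₁ + X₀ + N₂ + 1, fun N hN f hf => ?_⟩
  have hl := hN₂ N (by omega)
  have hl0 : 0 < Real.log N := lt_of_lt_of_le (by positivity) hl
  rw [div_le_iff₀ hε] at hl
  have hN0 : (0 : ℝ) < N := by exact_mod_cast (by omega : 0 < N)
  have hf1 : ∀ n, ‖f n‖ ≤ 1 := by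
    intro n
    obtain ⟨κ, hκ, hκq, hfκ⟩ := hf
    rw [hfκ, norm_mul, norm_pow, hz, one_pow, one_mul]
    exact hκ n
  have nat : N ∉ E → ∀ (ξ : ℕ → ℂ) (α : ℕ → ℝ),
      ∑ h ∈ H, ‖∑ n ∈ Icc 1 N, f (n + h) * ξ n * e (α h * n)‖ ^ 2 ≤
        (1 + ε) * N * ∑ n ∈ Icc 1 N, ‖ξ n‖ ^ 2 := by
    intro hNE ξ α
    exact Pool.Agent.Q42.SH.bes_one H (fun h n => f (n + h)) (fun h n => hf1 _) N κ₀ ε hκ0.le
      (by nlinarith [Nat.cast_nonneg (α := ℝ) H.card])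
      (fun a ha c hc hne γ => h3 N (by omega) a ha c hc hne hNE f hf γ) ξ α
  have lg : ∀ (ξ : ℕ → ℂ) (α : ℕ → ℝ),
      ∑ h ∈ H, ‖∑ n ∈ Icc 1 N, f (n + h) * ξ n * e (α h * n) / n‖ ^ 2 ≤
        (1 + ε) * Real.log N * ∑ n ∈ Icc 1 N, ‖ξ n‖ ^ 2 / n := by
    intro ξ α
    exact Pool.Agent.Q42.SH.bes_log H (fun h n => f (n + h)) (fun h n => hf1 _) N (κ₀ + κ₀) ε
      (by positivity) hκ2 (by linarith)
      (fun a ha c hc hne γ => hX₀ N (by omega) (fun n => f (n + a) * (starRingEnd ℂ) (f (n + c)) *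
        Pool.Agent.Helper602.MK.ee (γ * n)) (fun n => by
          show ‖f (n + a) * (starRingEnd ℂ) (f (n + c)) * Pool.Agent.Helper602.MK.ee (γ * n)‖ ≤ 1
          rw [norm_mul, norm_mul, RCLike.norm_conj, Pool.Agent.Helper602.MK.N_J1c.c_norm_ee, mul_one]
          exact mul_le_one₀ (hf1 _) (norm_nonneg _) (hf1 _)) κ₀ hκ0.le (by linarith)
        (fun N' hN' hN'E => h3 N' hN' a ha c hc hne hN'E f hf γ)) ξ α
  have hS : 0 ≤ ∑ n ∈ Icc 1 N, (1 : ℝ) := by positivity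
  refine ⟨fun hNE => ⟨fun ξ α => (nat hNE ξ α).trans ?_, fun k g hg s δ hδ => ?_⟩,
    fun ξ α => (lg ξ α).trans ?_, fun k g hg s δ hδ => ?_⟩
  · refine mul_le_mul_of_nonneg_right ?_ (sum_nonneg fun _ _ => by positivity)
    exact mul_le_mul_of_nonneg_right (by linarith) hN0.le
  · have h5 := Pool.Agent.Q42.SH.few_pick H (fun h α => ‖corr f g s h α N‖) (δ * N)
      ((1 + ε) * N * N) (by positivity) (fun α => by
        refine (nat hNE (fun n => ∏ j, g j (n + s j)) α).trans ?_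
        exact mul_le_mul_of_nonneg_left (Pool.Agent.Q42.SH.sq_le_N _ (prod_le g hg s) N) (by positivity))
    refine h5.trans ?_
    have e1 : (1 + ε) * N * N / (δ * N) ^ 2 = (1 + ε) / δ ^ 2 := by
      field_simp
    rw [e1]
    exact div_le_div_of_nonneg_right (by linarith) (by positivity)
  · refine mul_le_mul_of_nonneg_right ?_ (sum_nonneg fun _ _ => by positivity)
    exact mul_le_mul_of_nonneg_right (by linarith) hl0.le
  · have h5 := Pool.Agent.Q42.SH.few_pick H (fun h α => ‖logCorr f g s h α N‖) (δ * Real.log N)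
      ((1 + ε) ^ 2 * Real.log N ^ 2) (by positivity) (fun α => by
        refine (lg (fun n => ∏ j, g j (n + s j)) α).trans ?_
        have e2 := Pool.Agent.Q42.SH.sq_le_log _ (prod_le g hg s) N
        have e3 : 1 + Real.log N ≤ (1 + ε) * Real.log N := by linarith
        calc (1 + ε) * Real.log N * ∑ n ∈ Icc 1 N, ‖∏ j, g j (n + s j)‖ ^ 2 / n ≤
              (1 + ε) * Real.log N * ((1 + ε) * Real.log N) :=
              mul_le_mul_of_nonneg_left (e2.trans e3) (by positivity)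
          _ = _ := by ring)
    refine h5.trans ?_
    have e1 : (1 + ε) ^ 2 * Real.log N ^ 2 / (δ * Real.log N) ^ 2 = (1 + ε) ^ 2 / δ ^ 2 := by
      field_simp
    rw [e1]
    exact div_le_div_of_nonneg_right hεl (by positivity)

end Pool.Agent.Results.MP_0c9a68_nt.AllButFewShifts
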