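import Pool.Agent.TH823.EL.PolyU
import Pool.Agent.TH823.EL.Near
import Pool.Agent.Q56.TF.PSW3

/-!
# Elliott's conjecture for functions near a constant on average on the primes: ALL tuples of shifts in boxes of power side
around almost all tuples of members of real sequences

From the starting files: the theorem on families of integers (`Pool.Agent.TH823.EL.all_scales_E`), the scales without
exceptional characters, and the energy of polynomial values.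
From Mathlib: `DirichletCharacter ℂ q`: the Dirichlet characters of modulus `q`; `Finset.Icc 1 X`: the integers `n` with
`1 ≤ n ≤ X`; `Fintype.piFinset S`: the tuples `m` with `m i ∈ S i` for all `i`; `Polynomial ℤ`: the polynomials with
integer coefficients; `P.eval m`: the value at `m`.
-/

set_option autoImplicit false

namespace Pool.Agent.Results.MP_0c9a68_nt.NearConstantBoxes

open Finset

/-- The function `f` on the positive integers as a function on the integers, `0` at the integers `m ≤ 0`. -/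
noncomputable def ext (f : ℕ → ℂ) (m : ℤ) : ℂ := if 1 ≤ m then f m.toNat else 0

/-- The primes `p` with `y < p ≤ z`. -/
def primes (y z : ℕ) : Finset ℕ := (Ioc y z).filter Nat.Prime

/-- The integer part of `N ^ (1 / (2 D))`. -/
noncomputable def root (D N : ℕ) : ℕ := ⌊(N : ℝ) ^ (1 / (2 * D : ℝ))⌋₊

/-- At the scale `N`, with `Q = root D N`: `f (p n) = f p * f n` for all the primes `p` with `Q ^ 6 < p ≤ Q ^ D` and
all the `n` not divisible by `p` (for example `f` multiplicative), and `f p` is within `θ` of `w₀` on average over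
the primes `p` with `Q ^ 6 < p ≤ Q ^ (6 E)`, with the weights `1 / p`. -/
def Near (w₀ : ℂ) (θ : ℝ) (E D N : ℕ) (f : ℕ → ℂ) : Prop :=
  (∀ p n : ℕ, p.Prime → root D N ^ 6 < p → p ≤ root D N ^ D → ¬ p ∣ n → f (p * n) = f p * f n) ∧
    ∑ p ∈ primes (root D N ^ 6) (root D N ^ (6 * E)), ‖f p - w₀‖ / p ≤
      θ * ∑ p ∈ primes (root D N ^ 6) (root D N ^ (6 * E)), 1 / (p : ℝ)

/-- The scale `N` is not exceptional, with `Q = root D N`: no real nonprincipal character of modulus `q ≤ Q` has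
`∑ χ(p) / p < - (3 / 5) ∑ 1 / p` over the primes `p` with `Q ^ 6 < p ≤ Q ^ (6 E)`. -/
def NonExceptional (E D N : ℕ) : Prop :=
  ∀ q : ℕ, 1 ≤ q → q ≤ root D N → ∀ χ : DirichletCharacter ℂ q, χ ≠ 1 → χ ^ 2 = 1 →
    -(3 / 5) * ∑ p ∈ primes (root D N ^ 6) (root D N ^ (6 * E)), 1 / (p : ℝ) ≤
      ∑ p ∈ primes (root D N ^ 6) (root D N ^ (6 * E)), (χ (p : ZMod q)).re / p

open Classical in
/-- The number of the elements of the finite set `S` with the property `F`. -/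
noncomputable def num {α : Type} (S : Finset α) (F : α → Prop) : ℝ := ((S.filter F).card : ℝ)

/-- The sequences: either `f m = κ P m` for a nonconstant polynomial `P` with integer coefficients, of degree `c`, and a
real number `κ ≠ 0`; or `f m = ∑ w_y m ^ y`, a sum over a finite set of real exponents, if the largest exponent `c` is
greater than `1` and not an integer and `w_c ≠ 0` (for instance `f m = m ^ c`). -/
def RealSeq (f : ℕ → ℝ) (c : ℝ) : Prop :=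
  (∃ (P : Polynomial ℤ) (κ : ℝ), 1 ≤ P.natDegree ∧ κ ≠ 0 ∧ c = P.natDegree ∧
    f = fun m : ℕ => κ * ((P.eval (m : ℤ) : ℤ) : ℝ)) ∨
  (∃ (F : Finset ℝ) (w : ℝ → ℝ), c ∈ F ∧ (∀ y ∈ F, y ≤ c) ∧ w c ≠ 0 ∧ 1 < c ∧ (∀ k : ℕ, c ≠ k) ∧
    f = fun m : ℕ => ∑ y ∈ F, w y * (m : ℝ) ^ y)

/-- For all `x i` with `N ^ (1 - δ) ≤ (x i) ^ (c i) ≤ A N` and all real `β i` in `[-A N, A N]`: for all the tuples `m`
with `1 ≤ m i ≤ x i`, with at most `x 1 ⋯ x r / N ^ δ` exceptions, ALL the tuples `b` of integers with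
`|b i - (β i + f i (m i))| ≤ N ^ δ` for all `i` satisfy `|∑ n ≤ X, ∏ i, g i (a i * n + b i)| ≤ ε N` for all
`a i ≤ A` and all `X ≤ N`. -/
def Boxes (A : ℕ) {r : ℕ} (f : Fin r → ℕ → ℝ) (c : Fin r → ℝ) (ε δ : ℝ) (N : ℕ) (g : Fin r → ℕ → ℂ) : Prop :=
  ∀ x : Fin r → ℕ, (∀ i, (x i : ℝ) ^ (c i) ≤ A * N ∧ (N : ℝ) ^ (1 - δ) ≤ (x i : ℝ) ^ (c i)) →
    ∀ β : Fin r → ℝ, (∀ i, |β i| ≤ A * N) →
    num (Fintype.piFinset fun i => Icc 1 (x i)) (fun m => ¬ ∀ b : Fin r → ℤ,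
      (∀ i, |(b i : ℝ) - (β i + f i (m i))| ≤ (N : ℝ) ^ δ) → ∀ a : Fin r → ℕ, (∀ i, 1 ≤ a i ∧ a i ≤ A) →
      ∀ X : ℕ, X ≤ N → ‖∑ n ∈ Icc 1 X, ∏ i, ext (g i) (a i * n + b i)‖ ≤ ε * N) ≤
        (∏ i, (x i : ℝ)) * (N : ℝ) ^ (-δ)

lemma RealSeq.base {f : ℕ → ℝ} {c : ℝ} (h : RealSeq f c) : Pool.Agent.Q56.TF.Base f c ∧ 1 ≤ c := by
  rcases h with ⟨P, κ, hd, hκ, rfl, rfl⟩ | ⟨F, w, hcF, hmax, hwc, hc, hcn, rfl⟩
  · exact ⟨(Pool.Agent.Q56.TF.base_poly P hd).dil hκ, by exact_mod_cast hd⟩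
  · exact ⟨Pool.Agent.Q56.TF.base_gp F w c hcF hmax hwc hc hcn, hc.le⟩

lemma num_le_sum {α β : Type} {S : Finset α} {E : α → Prop} (Es : Finset β) {F : β → α → Prop}
    (h : ∀ a ∈ S, E a → ∃ e ∈ Es, F e a) : num S E ≤ ∑ e ∈ Es, num S (F e) := by
  classical
  unfold num
  rw [← Nat.cast_sum]
  apply Nat.cast_le.2
  refine le_trans ?_ card_biUnion_le
  apply card_le_card
  intro a ha
  rw [mem_filter] at ha
  obtain ⟨e, he, hF⟩ := h a ha.1 ha.2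
  rw [mem_biUnion]
  exact ⟨e, he, mem_filter.2 ⟨ha.1, hF⟩⟩

/-- one choice of `a` -/
lemma boxes_one {A k : ℕ} {f : Fin (k + 1) → ℕ → ℝ} {c : Fin (k + 1) → ℝ} {ε δ δ' : ℝ} {N : ℕ} (hN : 1 ≤ N)
    (hδ0 : 0 ≤ δ') (hδ : δ' ≤ δ) {g : Fin (k + 1) → ℕ → ℂ} (hg : ∀ i n, ‖g i n‖ ≤ 1) (j : Fin (k + 1))
    (h : Pool.Agent.Q56.TF.WG (g j) A ε δ (f j) (c j) N) (x : Fin (k + 1) → ℕ)
    (hx : ∀ i, (x i : ℝ) ^ (c i) ≤ A * N ∧ (N : ℝ) ^ (1 - δ) ≤ (x i : ℝ) ^ (c i)) (β : Fin (k + 1) → ℝ)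
    (hβ : ∀ i, |β i| ≤ A * N) (a : Fin (k + 1) → ℕ) (ha : ∀ i, 1 ≤ a i ∧ a i ≤ A) :
    num (Fintype.piFinset fun i => Icc 1 (x i)) (fun m => ∃ b : Fin (k + 1) → ℤ,
      (∀ i, |(b i : ℝ) - (β i + f i (m i))| ≤ (N : ℝ) ^ δ') ∧ ∃ X : ℕ, X ≤ N ∧
      ε * N < ‖∑ n ∈ Icc 1 X, ∏ i, ext (g i) (a i * n + b i)‖) ≤
      (∏ i, (x i : ℝ)) * ((7 : ℝ) ^ k * (N : ℝ) ^ (k * δ') * (N : ℝ) ^ (-δ)) := by
  classical
  refine le_trans (le_of_eq (by unfold num; congr!)) (Pool.Agent.Q56.TF.tuples_win hN hδ0 hδ h x (hx j) β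
    (hβ j) (ha j).1
    (fun b n => ∏ i : Fin k, ext (g (j.succAbove i)) (a (j.succAbove i) * n + b i)) ?_
    (fun m => ∃ b : Fin (k + 1) → ℤ, (∀ i, |(b i : ℝ) - (β i + f i (m i))| ≤ (N : ℝ) ^ δ') ∧ ∃ X : ℕ, X ≤ N ∧
      ε * N < ‖∑ n ∈ Icc 1 X, ∏ i, ext (g i) (a i * n + b i)‖) ?_)
  · intro b n
    rw [norm_prod]
    apply prod_le_one (fun _ _ => norm_nonneg _)
    intro i _
    unfold ext
    split_ifs
    · exact hg _ _
    · rw [norm_zero]; exact zero_le_one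
  · rintro m ⟨b, hb, X, hX, h1⟩
    refine ⟨b, hb, X, Nat.mul_le_mul (ha j).2 hX, lt_of_lt_of_eq h1 ?_⟩
    congr 1
    apply sum_congr rfl
    intro n _
    rw [Fin.prod_univ_succAbove _ j, mul_comm]
    rfl

lemma boxes_of {A k : ℕ} {f : Fin (k + 1) → ℕ → ℝ} {c : Fin (k + 1) → ℝ} {ε δ : ℝ} {N : ℕ} (hN : 1 ≤ N)
    (hδ : 0 < δ) (hN2 : ((A ^ (k + 1) : ℕ) : ℝ) * 7 ^ k ≤ (N : ℝ) ^ (δ / 4))
    {g : Fin (k + 1) → ℕ → ℂ} (hg : ∀ i n, ‖g i n‖ ≤ 1) (j : Fin (k + 1))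
    (h : Pool.Agent.Q56.TF.WG (g j) A ε δ (f j) (c j) N) : Boxes A f c ε (δ / (4 * (k + 1))) N g := by
  classical
  have hk0 : (0 : ℝ) < (k : ℝ) + 1 := by positivity
  obtain ⟨δ', hδ'⟩ : ∃ δ' : ℝ, δ' = δ / (4 * (k + 1)) := ⟨_, rfl⟩
  rw [← hδ']
  have hδ'0 : 0 < δ' := by rw [hδ']; positivity
  have hk4 : (4 * (k + 1) : ℝ) * δ' = δ := by rw [hδ']; field_simp
  have hkk : (0 : ℝ) ≤ k * δ' := by positivity
  have hδ4 : δ' ≤ δ / 4 := by nlinarith
  have hkδ : (k : ℝ) * δ' ≤ δ / 4 := by nlinarith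
  have hN0 : (0 : ℝ) < N := by exact_mod_cast (by omega : 0 < N)
  have hN1 : (1 : ℝ) ≤ N := by exact_mod_cast hN
  intro x hx β hβ
  have hx' : ∀ i, (x i : ℝ) ^ (c i) ≤ A * N ∧ (N : ℝ) ^ (1 - δ) ≤ (x i : ℝ) ^ (c i) := fun i =>
    ⟨(hx i).1, (Real.rpow_le_rpow_of_exponent_le hN1 (by linarith)).trans (hx i).2⟩
  have h3 : num (Fintype.piFinset fun i => Icc 1 (x i)) (fun m => ¬ ∀ b : Fin (k + 1) → ℤ,
      (∀ i, |(b i : ℝ) - (β i + f i (m i))| ≤ (N : ℝ) ^ δ') → ∀ a : Fin (k + 1) → ℕ, (∀ i, 1 ≤ a i ∧ a i ≤ A) →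
      ∀ X : ℕ, X ≤ N → ‖∑ n ∈ Icc 1 X, ∏ i, ext (g i) (a i * n + b i)‖ ≤ ε * N) ≤
      ∑ a ∈ (Fintype.piFinset fun _ : Fin (k + 1) => Icc 1 A),
      num (Fintype.piFinset fun i => Icc 1 (x i)) (fun m => ∃ b : Fin (k + 1) → ℤ,
        (∀ i, |(b i : ℝ) - (β i + f i (m i))| ≤ (N : ℝ) ^ δ') ∧ ∃ X : ℕ, X ≤ N ∧
        ε * N < ‖∑ n ∈ Icc 1 X, ∏ i, ext (g i) (a i * n + b i)‖) := by
    apply num_le_sum
    intro m _ hm
    by_contra hcon
    apply hm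
    intro b hb a ha X hX
    by_contra h4
    apply hcon
    exact ⟨a, Fintype.mem_piFinset.2 fun i => mem_Icc.2 (ha i), b, hb, X, hX, lt_of_not_ge h4⟩
  refine h3.trans ?_
  obtain ⟨Y, hY⟩ : ∃ Y : ℝ, Y = (∏ i, (x i : ℝ)) * ((7 : ℝ) ^ k * (N : ℝ) ^ (k * δ') * (N : ℝ) ^ (-δ)) := ⟨_, rfl⟩
  have hY0 : 0 ≤ Y := by rw [hY]; positivity
  refine (sum_le_sum (g := fun _ => Y) ?_).trans ?_
  · intro a ha
    rw [Fintype.mem_piFinset] at ha
    rw [hY]
    exact boxes_one hN hδ'0.le (by linarith) hg j h x hx' β hβ a (fun i => mem_Icc.1 (ha i))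
  · rw [sum_const, nsmul_eq_mul]
    have h4 : ((Fintype.piFinset fun _ : Fin (k + 1) => Icc 1 A).card : ℝ) = ((A ^ (k + 1) : ℕ) : ℝ) := by
      rw [Fintype.card_piFinset]
      simp only [Nat.card_Icc, Nat.add_sub_cancel, prod_const, card_univ, Fintype.card_fin]
    rw [h4]
    calc ((A ^ (k + 1) : ℕ) : ℝ) * Y
        = (∏ i, (x i : ℝ)) * ((((A ^ (k + 1) : ℕ) : ℝ) * 7 ^ k) * (N : ℝ) ^ (k * δ') * (N : ℝ) ^ (-δ)) := by
          rw [hY]; ring
      _ ≤ (∏ i, (x i : ℝ)) * ((N : ℝ) ^ (δ / 4) * (N : ℝ) ^ (δ / 4) * (N : ℝ) ^ (-δ)) := by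
          apply mul_le_mul_of_nonneg_left _ (by positivity)
          apply mul_le_mul_of_nonneg_right _ (by positivity)
          exact mul_le_mul hN2 (Real.rpow_le_rpow_of_exponent_le hN1 hkδ) (by positivity) (by positivity)
      _ ≤ _ := by
          apply mul_le_mul_of_nonneg_left _ (by positivity)
          rw [← Real.rpow_add hN0, ← Real.rpow_add hN0]
          exact Real.rpow_le_rpow_of_exponent_le hN1 (by linarith)

lemma root_pow {D Q : ℕ} (hD : 1 ≤ D) : root D (Q ^ (2 * D)) = Q := by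
  unfold root
  have hD0 : (0 : ℝ) < D := by exact_mod_cast hD
  have h1 : (((Q ^ (2 * D) : ℕ) : ℝ)) ^ (1 / (2 * D : ℝ)) = Q := by
    push_cast
    rw [← Real.rpow_natCast, ← Real.rpow_mul (Nat.cast_nonneg Q)]
    push_cast
    rw [mul_one_div_cancel (by positivity), Real.rpow_one]
  rw [h1, Nat.floor_natCast]

/-- Let `w₀ ≠ 1` be a complex number with `|w₀| ≤ 1`, let `f 1, ..., f r` be real sequences (real multiples of
nonconstant integer polynomials, or generalised polynomials whose largest exponent is greater than `1` and not an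
integer, e.g. `m ^ c`), let `A` be an integer and `ε > 0`. There are `E ≥ 1`, `D ≥ 6 E + 2`, `θ > 0` and `δ > 0` such
that, for all large `N`, with the additional assumption that the scale `N` is not exceptional if `w₀ = -1`: if
`g 1, ..., g r` are arbitrary functions bounded by `1`, one of which is multiplicative (with respect to the primes between
`N ^ (3 / D)` and `N ^ (1 / 2)`) and within `θ` of `w₀` on average on the primes between `N ^ (3 / D)` and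
`N ^ (3 E / D)`, then for all `x i` with `N ^ (1 - δ) ≤ (x i) ^ (c i) ≤ A N`, all real `β i` in `[-A N, A N]` and all the
tuples `m` with `1 ≤ m i ≤ x i` but `x 1 ⋯ x r / N ^ δ` of them, ALL the tuples `b` of integers with
`|b i - (β i + f i (m i))| ≤ N ^ δ` satisfy `|∑ n ≤ X, ∏ i, g i (a i * n + b i)| ≤ ε N` for all `a i ≤ A` and all
`X ≤ N`. There are arbitrarily large scales that are not exceptional. -/
theorem result (w₀ : ℂ) (hw₀ : ‖w₀‖ ≤ 1) (hw₁ : w₀ ≠ 1) (A r : ℕ) (f : Fin r → ℕ → ℝ) (c : Fin r → ℝ)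
    (hf : ∀ i, RealSeq (f i) (c i)) (ε : ℝ) (hε : 0 < ε) :
    ∃ E D : ℕ, 1 ≤ E ∧ 6 * E + 2 ≤ D ∧ ∃ θ δ : ℝ, 0 < θ ∧ 0 < δ ∧
      (∃ N₀ : ℕ, ∀ N : ℕ, N₀ ≤ N → (w₀ = -1 → NonExceptional E D N) →
        ∀ g : Fin r → ℕ → ℂ, (∀ i n, ‖g i n‖ ≤ 1) → (∃ j, Near w₀ θ E D N (g j)) → Boxes A f c ε δ N g) ∧
      ∀ N₁ : ℕ, ∃ N : ℕ, N₁ ≤ N ∧ NonExceptional E D N := by
  classical
  -- the constant `c` and the sufficient condition for the hypothesis on the primes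
  obtain ⟨c₁, hc, hc1, θ, hθ, E00, hnp⟩ : ∃ c : ℝ, 0 < c ∧ c ≤ 1 ∧ ∃ θ : ℝ, 0 < θ ∧ ∃ E00 : ℕ, ∀ E : ℕ, E00 ≤ E →
      ∀ Q : ℕ, 14 ≤ Q → (w₀ = -1 → Pool.Agent.TH823.PS.NE 6 E Q) → ∀ w : ℕ → ℂ,
      ∑ p ∈ primes (Q ^ 6) (Q ^ (6 * E)), ‖w p - w₀‖ / p ≤ θ * ∑ p ∈ primes (Q ^ 6) (Q ^ (6 * E)), 1 / (p : ℝ) →
      Pool.Agent.TH823.EL.NPW c Q (Q ^ 6) (Q ^ (6 * E)) w := by
    by_cases hneg : w₀ = -1
    · obtain ⟨E0, h⟩ := Pool.Agent.TH823.EL.npw_neg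
      refine ⟨1 / 40, by norm_num, by norm_num, 1 / 40, by norm_num, E0, fun E hE Q hQ hNE w hw => ?_⟩
      refine h E hE Q hQ (hNE hneg) w ?_
      simp only [hneg, sub_neg_eq_add] at hw
      exact hw
    · obtain ⟨c, hc, hc1, hcw⟩ : ∃ c : ℝ, 0 < c ∧ c ≤ 1 / 338 ∧
          ((‖w₀‖ = 1 ∧ |w₀.re| ≤ 1 - c) ∨ ‖w₀‖ ≤ 1 - c) := by
        rcases eq_or_lt_of_le hw₀ with h1 | h1
        · have h2 : |w₀.re| < 1 := by
            have h3 := Complex.abs_re_le_norm w₀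
            rw [h1] at h3
            refine lt_of_le_of_ne h3 fun h4 => ?_
            have h5 : w₀.re ^ 2 + w₀.im ^ 2 = 1 := by
              have := Complex.normSq_eq_norm_sq w₀
              rw [Complex.normSq_apply, h1] at this
              nlinarith
            have h6 : w₀.re ^ 2 = 1 := by rw [← sq_abs, h4, one_pow]
            have h7 : w₀.im = 0 := by
              have : w₀.im ^ 2 = 0 := by linarith
              exact pow_eq_zero_iff two_ne_zero |>.1 this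
            have h8 : (w₀.re - 1) * (w₀.re + 1) = 0 := by linarith [sq w₀.re]
            rcases mul_eq_zero.1 h8 with h9 | h9
            · exact hw₁ (Complex.ext (by simpa using sub_eq_zero.1 h9) (by simpa using h7))
            · exact hneg (Complex.ext (by simpa using eq_neg_of_add_eq_zero_left h9) (by simpa using h7))
          refine ⟨min (1 / 338) (1 - |w₀.re|), lt_min (by norm_num) (by linarith), min_le_left _ _,
            Or.inl ⟨h1, ?_⟩⟩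
          have := min_le_right (1 / 338 : ℝ) (1 - |w₀.re|)
          linarith
        · refine ⟨min (1 / 338) (1 - ‖w₀‖), lt_min (by norm_num) (by linarith), min_le_left _ _, Or.inr ?_⟩
          have := min_le_right (1 / 338 : ℝ) (1 - ‖w₀‖)
          linarith
      obtain ⟨E0, h⟩ := Pool.Agent.TH823.EL.npw_near c hc hc1
      exact ⟨c / 4, by positivity, by linarith, c / 4, by positivity, E0, fun E hE Q hQ _ w hw =>
        h E hE Q hQ w₀ hcw w hw⟩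
  obtain ⟨E01, hgs⟩ := Pool.Agent.TH823.PS.good_scales
  obtain ⟨P, B, hP1, hAB, hwg⟩ := Pool.Agent.Q56.TF.wg_of_good A f c (fun i => (hf i).base.1) (fun i => (hf i).base.2)
  obtain ⟨τ, hτ, E, D, hE, hD, δ₀, hδ₀, Q0, hQ03, hQ0⟩ := Pool.Agent.TH823.EL.all_scales_E (E00 + E01) c₁
    hc hc1 B 1 P (fun i : Empty => i.elim) (fun i => i.elim) hε
  obtain ⟨δ, hδ, hδ1, N₂, hN₂⟩ := hwg δ₀ hδ₀
  obtain ⟨N₀, hN₀⟩ := Pool.Agent.TH823.EL.scale_root D (by omega) (Q0 + 14)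
  obtain ⟨N₃, hN₃⟩ := Pool.Agent.Q56.TF.ev_rpow (δ / 4) (((A ^ r : ℕ) : ℝ) * 7 ^ (r - 1)) (by positivity)
  refine ⟨E, D, by omega, hD, θ, δ / (4 * ((r - 1 : ℕ) + 1)), hθ, by positivity, ⟨N₀ + N₂ + N₃ + 1,
    fun N hN hex g hg hj => ?_⟩, fun N₁ => ?_⟩
  · obtain ⟨j, hmul, hnear⟩ := hj
    rcases r with _ | k
    · exact j.elim0
    · obtain ⟨h1, h2, h3⟩ := hN₀ N (by omega)
      have hQ : ⌊(N : ℝ) ^ (1 / (2 * D : ℝ))⌋₊ = root D N := rfl
      rw [hQ] at h1 h2 h3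
      have hNE : w₀ = -1 → Pool.Agent.TH823.PS.NE 6 E (root D N) := by
        intro h4 q _ hq χ hχ1 hχ2
        have h5 := hex h4 q (Nat.pos_of_ne_zero (NeZero.ne q)) hq χ hχ1 hχ2
        refine le_trans h5 (le_of_eq ?_)
        apply sum_congr rfl
        intro p _
        rw [Pool.Agent.TH823.PS.rt_zero]
      have hwin : Pool.Agent.TH823.EL.Win (root D N ^ 6) (root D N ^ D) 0 (g j) (g j) :=
        ⟨hg j, hg j, fun p n hp h4 h5 h6 => by rw [hmul p n hp h4 h5 h6, sub_self, norm_zero]⟩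
      have h4 := hQ0 (root D N) (by omega) (g j) (g j) 0 le_rfl hτ.le hwin
        (hnp E (by omega) (root D N) (by omega) hNE (g j) hnear) N h2 h3
      have h5 := hN₃ N (by omega)
      simp only [Nat.add_sub_cancel] at h5 ⊢
      exact boxes_of (by omega) hδ h5 hg j (hN₂ N (by omega) (g j) ε hε h4.1 j)
  · obtain ⟨Q, hQ, hNE⟩ := hgs E (by omega) 6 (by norm_num) (N₁ + 1)
    refine ⟨Q ^ (2 * D), ?_, ?_⟩
    · have : Q ≤ Q ^ (2 * D) := Nat.le_self_pow (by omega) Q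
      omega
    · intro q hq1 hq χ hχ1 hχ2
      rw [root_pow (by omega)] at hq ⊢
      have : NeZero q := ⟨by omega⟩
      refine le_trans (hNE q hq χ hχ1 hχ2) (le_of_eq ?_)
      apply sum_congr rfl
      intro p _
      rw [Pool.Agent.TH823.PS.rt_zero]

end Pool.Agent.Results.MP_0c9a68_nt.NearConstantBoxes
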