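import Pool.Agent.Q25.TPer

/-!
# Elliott's conjecture with one factor `λ κ` or `μ κ` at almost all shifts from thin families, arbitrary other factors

The exponential sum bounds for the Liouville and Möbius functions (Davenport's theorem) and the bilinear estimate along
families of small additive energy are from the starting files (`Pool.Agent.H807R2.Dav`, `Pool.Agent.H373R2.T7`,
`Pool.Agent.TH935.LF1`).
-/

set_option autoImplicit false

namespace Pool.Agent.Results.MP_0c9a68_nt.PolynomialShifts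

open Finset Polynomial

/-- the function `g` extended by `0` to the integers `z ≤ 0` -/
def ext (g : ℕ → ℂ) (z : ℤ) : ℂ := if 1 ≤ z then g z.toNat else 0

/-- `g` is bounded by `1` and its exponential sums are uniformly at most `N / log ^ U N`, for every `U` (Davenport's bound). -/
def Davenport (g : ℕ → ℂ) : Prop :=
  (∀ n, ‖g n‖ ≤ 1) ∧ ∀ U : ℕ, ∃ N₀ : ℕ, ∀ N : ℕ, N₀ ≤ N → ∀ α : ℝ,
    ‖∑ n ∈ Icc 1 N, g n * Complex.exp (2 * Real.pi * Complex.I * (((n : ℝ) * α : ℝ) : ℂ))‖ ≤ N / Real.log N ^ U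

/-- The additive energy of order `p` of the family `s 1, ..., s x`: the number of the solutions of
`s (m 1) + ... + s (m p) = s (m' 1) + ... + s (m' p)` with all `m i`, `m' i` in `{1, ..., x}`. -/
def energy (p x : ℕ) (s : ℕ → ℤ) : ℕ :=
  (((Fintype.piFinset fun _ : Fin p => Icc 1 x) ×ˢ (Fintype.piFinset fun _ : Fin p => Icc 1 x)).filter
    (fun q => ∑ i, s (q.1 i) = ∑ i, s (q.2 i))).card

/-- The family `s 1, ..., s x` is contained in `[-B N, B N]` and has nearly minimal energy of order `p`: at most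
`log ^ C N * x ^ (2 p) / N`. -/
def Thin (p B C N x : ℕ) (s : ℕ → ℤ) : Prop :=
  (∀ m ∈ Icc 1 x, |s m| ≤ B * N) ∧ (energy p x s : ℝ) * N ≤ Real.log N ^ C * (x : ℝ) ^ (2 * p)

/-- The range `N / log ^ C N ≤ x ^ d ≤ B N`, `|c| ≤ B N` for the values of a polynomial of degree `d`. -/
def Range (B C N d x : ℕ) (c : ℤ) : Prop :=
  |c| ≤ B * N ∧ (N : ℝ) ≤ Real.log N ^ C * (x : ℝ) ^ d ∧ x ^ d ≤ B * N

open Classical in
/-- For each of at most `log ^ T N` indices `l` let `a l ≥ 1` and let `w l` be an arbitrary weight bounded by `log ^ T N`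
(for instance any product of bounded functions of `n + h 2, ..., n + h k`). All the shifts `h = s 1, ..., s x` with at most
`x / log ^ U N` exceptions satisfy `|∑ n ≤ X, g (a l n + h) w l n| ≤ N / log ^ U N` for all `l` and all `X ≤ B N / a l`. -/
def AlmostAll (g : ℕ → ℂ) (B T U N x : ℕ) (s : ℕ → ℤ) : Prop :=
  ∀ D : ℕ, (D : ℝ) ≤ Real.log N ^ T → ∀ (a : Fin D → ℕ) (w : Fin D → ℕ → ℂ), (∀ l, 1 ≤ a l) →
    (∀ l n, ‖w l n‖ ≤ Real.log N ^ T) →
      (((Icc 1 x).filter (fun m => ¬ ∀ l, ∀ X : ℕ, a l * X ≤ B * N →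
        ‖∑ n ∈ Icc 1 X, ext g ((a l : ℤ) * n + s m) * w l n‖ ≤ N / Real.log N ^ U)).card : ℝ) ≤ x / Real.log N ^ U

open Classical in
/-- For each of at most `log ^ T N` indices `l` let `a l i ≥ 1` and let `G l i` be arbitrary functions bounded by `1`.
All the tuples `m` with `1 ≤ m i ≤ x i`, with at most `(∏ i, x i) / log ^ U N` exceptions, satisfy, with `h i = s i (m i)`,
`|∑ n ≤ X, g (a 0 n + h 0) * ∏ i ∈ J, G i (a i n + h i)| ≤ N / log ^ U N` for all `l`, all sets `J` of indices `i ≥ 1` and all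
`X ≤ B N / a l 0`. -/
def AlmostAllTuples (g : ℕ → ℂ) (k B T U N : ℕ) (x : Fin (k + 1) → ℕ) (s : Fin (k + 1) → ℕ → ℤ) : Prop :=
  ∀ D : ℕ, (D : ℝ) ≤ Real.log N ^ T → ∀ (a : Fin D → Fin (k + 1) → ℕ) (G : Fin D → Fin k → ℕ → ℂ),
    (∀ l i, 1 ≤ a l i) → (∀ l i n, ‖G l i n‖ ≤ 1) →
      (((Fintype.piFinset fun i => Icc 1 (x i)).filter (fun m : Fin (k + 1) → ℕ =>
        ¬ ∀ l, ∀ J : Finset (Fin k), ∀ X : ℕ, a l 0 * X ≤ B * N →
          ‖∑ n ∈ Icc 1 X, ext g ((a l 0 : ℤ) * n + s 0 (m 0)) *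
            ∏ i ∈ J, ext (G l i) ((a l i.succ : ℤ) * n + s i.succ (m i.succ))‖ ≤ N / Real.log N ^ U)).card : ℝ) ≤
              (∏ i, (x i : ℝ)) / Real.log N ^ U

lemma ext_norm (g : ℕ → ℂ) (hg : ∀ n, ‖g n‖ ≤ 1) (z : ℤ) : ‖ext g z‖ ≤ 1 := by
  unfold ext
  split_ifs
  · exact hg _
  · simp

/-- from one family to tuples: only the first family matters -/
lemma tuples (g : ℕ → ℂ) (k B T U N : ℕ) (hN : 3 ≤ N) (hlog : ((2 ^ k : ℕ) : ℝ) ≤ Real.log N) (x : Fin (k + 1) → ℕ)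
    (s : Fin (k + 1) → ℕ → ℤ) (h : AlmostAll g B (T + 1) U N (x 0) (s 0)) : AlmostAllTuples g k B T U N x s := by
  classical
  intro D hD a G ha hG
  have hNr : (3 : ℝ) ≤ N := by exact_mod_cast hN
  have hl1 : 1 ≤ Real.log (N : ℝ) := by
    rw [Real.le_log_iff_exp_le (by linarith)]
    exact Real.exp_one_lt_d9.le.trans (by linarith)
  have h1 := Pool.Agent.Q25.TFam.tuple_count (0 : Fin (k + 1)) (fun i => Icc 1 (x i)) (fun m : Fin (k + 1) → ℕ =>
        ¬ ∀ l, ∀ J : Finset (Fin k), ∀ X : ℕ, a l 0 * X ≤ B * N →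
          ‖∑ n ∈ Icc 1 X, ext g ((a l 0 : ℤ) * n + s 0 (m 0)) *
            ∏ i ∈ J, ext (G l i) ((a l i.succ : ℤ) * n + s i.succ (m i.succ))‖ ≤ N / Real.log N ^ U)
      (T := (x 0 : ℝ) / Real.log N ^ U) (by
    intro b _
    obtain ⟨e⟩ : Nonempty ((Fin D × Finset (Fin k)) ≃ Fin (Fintype.card (Fin D × Finset (Fin k)))) :=
      ⟨Fintype.equivFin _⟩
    have hcard : ((Fintype.card (Fin D × Finset (Fin k)) : ℕ) : ℝ) ≤ Real.log N ^ (T + 1) := by
      rw [Fintype.card_prod, Fintype.card_fin, Fintype.card_finset, Fintype.card_fin, Nat.cast_mul, pow_succ]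
      exact mul_le_mul hD hlog (by positivity) (by positivity)
    have h2 := h _ hcard (fun j => a (e.symm j).1 0)
      (fun j n => ∏ i ∈ (e.symm j).2, ext (G (e.symm j).1 i) ((a (e.symm j).1 i.succ : ℤ) * n + s i.succ (b i)))
      (fun j => ha _ 0) (fun j n => by
        rw [norm_prod]
        exact (prod_le_one (fun _ _ => norm_nonneg _) (fun i _ => ext_norm _ (hG _ i) _)).trans (one_le_pow₀ hl1))
    refine le_trans ?_ h2
    apply Nat.cast_le.2
    apply card_le_card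
    intro m hm
    rw [mem_filter] at hm ⊢
    obtain ⟨hm1, hm2⟩ := hm
    refine ⟨hm1, fun hc => hm2 fun l J X hX => ?_⟩
    have h3 := hc (e (l, J)) X (by rw [e.symm_apply_apply]; exact hX)
    rw [e.symm_apply_apply] at h3
    simp only [Fin.insertNth_zero, Fin.cons_zero, Fin.cons_succ]
    exact h3)
  refine (le_of_eq ?_).trans (h1.trans (le_of_eq ?_))
  · congr!
  · rw [Fin.prod_univ_succAbove _ (0 : Fin (k + 1))]
    simp only [Nat.card_Icc, Nat.add_sub_cancel]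
    ring

/-- * For a periodic function `κ` bounded by `1`, the functions `λ κ` and `μ κ` have the property `Davenport`.

For every function `g` with this property and fixed `k`, `B`, `C`, `T` and `U`, and all large `N`:

* Almost all the shifts from a family of nearly minimal energy of any fixed order `p` have the property `AlmostAll`.
* So do almost all the shifts `c + P m`, `m ≤ x`, for a non-constant polynomial `P` of degree `d`, where
  `N / log ^ C N ≤ x ^ d ≤ B N` and `|c| ≤ B N`.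
* Almost all the tuples of shifts from `k + 1` families, the first one of nearly minimal energy of any fixed order `p`,
  the others arbitrary, have the property `AlmostAllTuples`.
* So do almost all the tuples of shifts if the first family is `c + P m`, as above, and the others are arbitrary. -/
theorem result :
    (∀ (q : ℕ) (κ : ℕ → ℂ), 1 ≤ q → (∀ n, κ (n + q) = κ n) → (∀ n, ‖κ n‖ ≤ 1) →
      Davenport (fun n => (-1) ^ ArithmeticFunction.cardFactors n * κ n) ∧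
      Davenport (fun n => (ArithmeticFunction.moebius n : ℂ) * κ n)) ∧
    ∀ (g : ℕ → ℂ), Davenport g → ∀ k B C T U : ℕ,
      (∀ p : ℕ, ∃ N₀ : ℕ, ∀ N : ℕ, N₀ ≤ N → ∀ (x : ℕ) (s : ℕ → ℤ), Thin p B C N x s → AlmostAll g B T U N x s) ∧
      (∀ P : ℤ[X], 1 ≤ P.natDegree → ∃ N₀ : ℕ, ∀ N : ℕ, N₀ ≤ N → ∀ (c : ℤ) (x : ℕ), Range B C N P.natDegree x c →
        AlmostAll g B T U N x (fun m => c + P.eval (m : ℤ))) ∧
      (∀ p : ℕ, ∃ N₀ : ℕ, ∀ N : ℕ, N₀ ≤ N → ∀ (x : Fin (k + 1) → ℕ) (s : Fin (k + 1) → ℕ → ℤ),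
        Thin p B C N (x 0) (s 0) → AlmostAllTuples g k B T U N x s) ∧
      (∀ P : ℤ[X], 1 ≤ P.natDegree → ∃ N₀ : ℕ, ∀ N : ℕ, N₀ ≤ N → ∀ (c : ℤ) (x : Fin (k + 1) → ℕ)
        (s : Fin (k + 1) → ℕ → ℤ), Range B C N P.natDegree (x 0) c → (∀ m, s 0 m = c + P.eval (m : ℤ)) →
          AlmostAllTuples g k B T U N x s) := by
  classical
  refine ⟨?_, ?_⟩
  · intro q κ hq hκ hκ1
    constructor
    · refine ⟨fun n => ?_, Pool.Agent.Q25.TPer.sup_twist Pool.Agent.W93.LM.nice_liR.2.1 q hq κ hκ hκ1⟩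
      rw [norm_mul, norm_pow, norm_neg, norm_one, one_pow, one_mul]
      exact hκ1 n
    · refine ⟨fun n => ?_, Pool.Agent.Q25.TPer.sup_twist Pool.Agent.W93.LM.nice_muC.2.1 q hq κ hκ hκ1⟩
      rw [norm_mul]
      calc _ ≤ (1 : ℝ) * 1 := mul_le_mul (Pool.Agent.W93.LM.nice_muC.1 n) (hκ1 n) (norm_nonneg _) (by norm_num)
        _ = 1 := mul_one _
  intro g hg k B C T U
  have hf := hg.1
  have hs : Pool.Agent.H373R2.T7.SupSmall g := hg.2
  have key : ∀ T N x : ℕ, ∀ s : ℕ → ℤ, Pool.Agent.Q25.TFam.AllSmall g B T U N x s → AlmostAll g B T U N x s := by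
    intro T N x s hs D hD a w ha hw
    refine hs D hD a w ha (fun l n _ _ => hw l n) _ (filter_subset _ _) ?_
    intro m hm
    rw [mem_filter] at hm
    obtain ⟨_, hm2⟩ := hm
    push Not at hm2
    obtain ⟨l, X, hX, hb⟩ := hm2
    refine ⟨l, X, hX, lt_of_lt_of_le hb (le_of_eq ?_)⟩
    congr 1
    apply sum_congr rfl
    intro n _
    rw [mul_comm]
    push_cast
    rfl
  have p1 : ∀ T p : ℕ, ∃ N₀ : ℕ, ∀ N : ℕ, N₀ ≤ N → ∀ (x : ℕ) (s : ℕ → ℤ), Thin p B C N x s → AlmostAll g B T U N x s := by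
    intro T p
    obtain ⟨n1, h1⟩ := Pool.Agent.Q25.TFam.fam_small hf hs p B C T U
    exact ⟨n1, fun N hN x s h => key T N x s (h1 N hN x s h.1 h.2)⟩
  have p2 : ∀ T : ℕ, ∀ P : ℤ[X], 1 ≤ P.natDegree → ∃ N₀ : ℕ, ∀ N : ℕ, N₀ ≤ N → ∀ (c : ℤ) (x : ℕ),
      Range B C N P.natDegree x c → AlmostAll g B T U N x (fun m => c + P.eval (m : ℤ)) := by
    intro T P hP
    obtain ⟨n1, h1⟩ := Pool.Agent.Q25.TFam.poly_small hf hs P hP B C T U
    exact ⟨n1, fun N hN c x h => key T N x _ (h1 N hN c h.1 x h.2.1 h.2.2)⟩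
  obtain ⟨n0, h0⟩ := Pool.Agent.H373R2.T7.ev_L' (2 ^ k)
  refine ⟨p1 T, p2 T, ?_, ?_⟩
  · intro p
    obtain ⟨n1, h1⟩ := p1 (T + 1) p
    exact ⟨n0 + n1 + 3, fun N hN x s h => tuples g k B T U N (by omega) (by exact_mod_cast h0 N (by omega)) x s
      (h1 N (by omega) _ _ h)⟩
  · intro P hP
    obtain ⟨n1, h1⟩ := p2 (T + 1) P hP
    refine ⟨n0 + n1 + 3, fun N hN c x s h hsP => tuples g k B T U N (by omega) (by exact_mod_cast h0 N (by omega)) x s ?_⟩
    have e : s 0 = fun m : ℕ => c + P.eval (m : ℤ) := funext hsP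
    rw [e]
    exact h1 N (by omega) c _ h

end Pool.Agent.Results.MP_0c9a68_nt.PolynomialShifts
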