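import Pool.Agent.Q42.SH.Scales
import Pool.Agent.Y958.U.Diag

/-!
# Elliott's conjecture: `k` factors `z ^ Ω(n) κ_j(n)` at the points of a progression, every `k`

Let `|z| = 1`, `z ≠ 1`.  The correlations of `k` functions `g_j(n) = z ^ Ω(n) κ_j(n)`, `κ_j` periodic, at
the shifts `h, h + t, ..., h + (k-1) t`, also multiplied by arbitrary quadratic phases, are at most
`1 / √2` at almost all scales.  The bound does not depend on `k`.  The quotient of two neighbouring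
products is a two point product times a periodic function and a linear phase.
-/

set_option autoImplicit false

open Finset Filter

namespace Pool.Agent.Results.MP_0c9a68_nt.ProgressionsOfAnyLength

/-- `Ω(n)`, the number of prime factors counted with multiplicity -/
def Om (n : ℕ) : ℕ := ArithmeticFunction.cardFactors n

/-- `e(x) = exp(2 π i x)` -/
noncomputable def e (x : ℝ) : ℂ := Complex.exp (2 * Real.pi * x * Complex.I)

open Classical in
/-- logarithmic density zero -/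
def LogDensityZero (E : Set ℕ) : Prop :=
  Tendsto (fun X : ℕ => (∑ N ∈ Icc 1 X, if N ∈ E then (1 : ℝ) / N else 0) / Real.log X) atTop (nhds 0)

/-- `g j (n) = z ^ Ω(n) κ_j(n)` for `j = 0, 1, 2, ...`, with functions `κ_j` bounded by `1` and periodic
with period `q` -/
def OmegaFamily (z : ℂ) (q : ℕ) (g : ℕ → ℕ → ℂ) : Prop := ∃ κ : ℕ → ℕ → ℂ, (∀ j n, ‖κ j n‖ ≤ 1) ∧
  (∀ j n, κ j (n + q) = κ j n) ∧ ∀ j n, g j n = z ^ Om n * κ j n

/-- **Theorem.** Let `|z| = 1`, `z ≠ 1`.  There is one set `𝓔` of logarithmic density zero, depending only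
on `z`, such that for every number `k ≥ 1` of factors, every difference `t ≥ 1`, every `h`, every period
`q ≥ 1` and every `ε > 0`:
* for all large `N` outside `𝓔`, for all functions `g_j(n) = z ^ Ω(n) κ_j(n)`, `κ_j` periodic with period
  `q` and bounded by `1`, all real `α`, `β` and all `y ≤ N`:
  `|∑_{n ≤ y} g_0(n + h) g_1(n + h + t) ⋯ g_{k-1}(n + h + (k-1) t) e(α n² + β n)| ≤ (1/√2 + ε) N`;
* for all large `X`, all such `g_j` and all real `α`, `β`:
  `|∑_{n ≤ X} g_0(n + h) ⋯ g_{k-1}(n + h + (k-1) t) e(α n² + β n) / n| ≤ (1/√2 + ε) log X`. -/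
theorem result (z : ℂ) (hz : ‖z‖ = 1) (hz1 : z ≠ 1) : ∃ 𝓔 : Set ℕ, LogDensityZero 𝓔 ∧
    ∀ k t h q : ℕ, 1 ≤ k → 1 ≤ t → 1 ≤ q → ∀ ε : ℝ, 0 < ε →
      (∃ N₀ : ℕ, ∀ N : ℕ, N₀ ≤ N → N ∉ 𝓔 → ∀ g : ℕ → ℕ → ℂ, OmegaFamily z q g →
        ∀ (α β : ℝ) (y : ℕ), y ≤ N →
          ‖∑ n ∈ Icc 1 y, (∏ j ∈ range k, g j (n + h + j * t)) * e (α * (n : ℝ) ^ 2 + β * n)‖ ≤
            (1 / √2 + ε) * N) ∧
      ∃ X₀ : ℕ, ∀ X : ℕ, X₀ ≤ X → ∀ g : ℕ → ℕ → ℂ, OmegaFamily z q g → ∀ α β : ℝ,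
          ‖∑ n ∈ Icc 1 X, (∏ j ∈ range k, g j (n + h + j * t)) * e (α * (n : ℝ) ^ 2 + β * n) / n‖ ≤
            (1 / √2 + ε) * Real.log X := by
  obtain ⟨E, hE, h1⟩ := Pool.Agent.Q42.SH.prog_LZ z hz hz1
  have hs : (1 : ℝ) / √2 = √2 / 2 := by
    have s2 : √2 * √2 = 2 := Real.mul_self_sqrt (by norm_num)
    have s0 : 0 < √2 := Real.sqrt_pos.2 (by norm_num)
    rw [div_eq_div_iff s0.ne' (by norm_num)]
    linarith
  have hph : ∀ (g : ℕ → ℕ → ℂ) (κ : ℕ → ℕ → ℂ), (∀ j n, g j n = z ^ Om n * κ j n) →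
      ∀ (k t h n : ℕ) (α β : ℝ),
      (∏ j ∈ range k, g j (n + h + j * t)) * e (α * (n : ℝ) ^ 2 + β * n) =
        Pool.Agent.Q42.SH.Pk z κ k t (n + h) * Pool.Agent.Q42.SH.ph α β n := by
    intro g κ hg k t h n α β
    have a1 : ∏ j ∈ range k, g j (n + h + j * t) = Pool.Agent.Q42.SH.Pk z κ k t (n + h) :=
      prod_congr rfl fun j _ => hg j _
    have a2 : e (α * (n : ℝ) ^ 2 + β * n) = Pool.Agent.Q42.SH.ph α β n := rfl
    rw [a1, a2]
  refine ⟨E, hE, fun k t h q hk ht hq ε hε => ?_⟩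
  rw [hs]
  constructor
  · obtain ⟨N₀, h2⟩ := h1 k t h q hk ht hq ε hε
    refine ⟨N₀, fun N hN hNE g hg α β y hy => ?_⟩
    obtain ⟨κ, hκ, hκq, hgκ⟩ := hg
    rw [sum_congr rfl fun n _ => hph g κ hgκ k t h n α β]
    exact h2 N hN hNE κ hκ hκq α β y hy
  · obtain ⟨N₀, h2⟩ := h1 k t h q hk ht hq (ε / 4) (by positivity)
    have hT : LogDensityZero (E ∪ {N | N < N₀}) :=
      Pool.Agent.Y958.U.LZ_union hE (Pool.Agent.Y958.U.LZ_bdd _ N₀ fun n hn => hn)
    have hlog : Tendsto (fun X : ℕ => Real.log X) atTop atTop :=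
      Real.tendsto_log_atTop.comp tendsto_natCast_atTop_atTop
    have h3 := hT.eventually (ge_mem_nhds (show (0 : ℝ) < ε / 4 by positivity))
    obtain ⟨X₀, hX₀⟩ := eventually_atTop.1 (h3.and ((hlog.eventually_ge_atTop ((√2 / 2 + ε + 1) * 4 / ε)).and
      (hlog.eventually_gt_atTop 0)))
    refine ⟨X₀, fun X hX g hg α β => ?_⟩
    obtain ⟨b1, b2, b3⟩ := hX₀ X hX
    obtain ⟨κ, hκ, hκq, hgκ⟩ := hg
    have s0 : 0 < √2 := Real.sqrt_pos.2 (by norm_num)
    rw [div_le_iff₀ b3] at b1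
    rw [div_le_iff₀ hε] at b2
    have h4 := Pool.Agent.Q42.SH.log_c (fun n => Pool.Agent.Q42.SH.Pk z κ k t (n + h) *
      Pool.Agent.Q42.SH.ph α β n) (fun n => by
        rw [norm_mul, Pool.Agent.Q42.SH.ph_norm, mul_one]
        exact Pool.Agent.Q42.SH.Pk_le z hz κ hκ k t _) (√2 / 2 + ε / 4) (by positivity) X
      (E ∪ {N | N < N₀}) (fun N hN1 hNX hNT => by
        have c1 : N ∉ E := fun hh => hNT (Or.inl hh)
        have c2 : N₀ ≤ N := by
          by_contra hcc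
          exact hNT (Or.inr (not_le.1 hcc))
        exact h2 N c2 c1 κ hκ hκq α β N le_rfl)
    rw [sum_congr rfl fun n _ => by rw [hph g κ hgκ k t h n α β]]
    refine h4.trans ?_
    have e1 : (√2 / 2 + ε / 4) * (1 + Real.log X) = (√2 / 2) * Real.log X + ε / 4 * Real.log X +
      (√2 / 2 + ε / 4) := by ring
    rw [e1]
    have e2 : (√2 / 2 + ε) * Real.log X = √2 / 2 * Real.log X + ε * Real.log X := by ring
    rw [e2]
    nlinarith

end Pool.Agent.Results.MP_0c9a68_nt.ProgressionsOfAnyLength
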